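import Mathlib
import Pool.Agent.R175.Disk
import Pool.Agent.R175.Hexa.Hexagon
import Pool.Agent.R175.Hexa.NoSys
import Pool.Agent.R175.Hexa.Tiling

/-!
# A non-convex anisohedral hexagon

The hexagon with vertices `0, 1+i, 2i, -3+2i, -3-2i, -2i` (a `3 × 4` rectangle with a right isosceles triangle
attached to one half of a long side) tiles the plane: four copies surround a `2 × 2` square and fill it with their
triangles, and the resulting pinwheel of area `52` tiles by translations.  No tiling by copies of this hexagon is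
isohedral: at the reflex corner only the pinwheel rotation is possible, and following the next gaps in the
boundary of the configuration forced by it leads to overlapping tiles in all cases.
-/

set_option autoImplicit false

namespace Pool.Agent.Results.MP_ef5fdc_co.AnisohedralHexagon

open Set Pool.Agent.R175.Hexa

/-- A closed topological disk in the plane. -/
def IsDisk (C : Set ℂ) : Prop := IsClosed C ∧ Nonempty (C ≃ₜ Metric.closedBall (0 : ℂ) 1)

/-- `C` is a hexagon with vertices `v 0, …, v 5` in this cyclic order: the six vertices are distinct, two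
different sides have no common points except common end points, no three consecutive vertices lie on a line, and
`C` is a closed topological disk whose boundary is the union of the six sides. -/
structure IsHexagon (v : Fin 6 → ℂ) (C : Set ℂ) : Prop where
  distinct : Function.Injective v
  simple : ∀ i j, i ≠ j → segment ℝ (v i) (v (i + 1)) ∩ segment ℝ (v j) (v (j + 1)) ⊆
    {v i, v (i + 1)} ∩ {v j, v (j + 1)}
  corner : ∀ i, ¬ Collinear ℝ ({v i, v (i + 1), v (i + 2)} : Set ℂ)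
  disk : IsDisk C
  boundary : frontier C = ⋃ i, segment ℝ (v i) (v (i + 1))

/-- A tiling of the plane: a countable family of closed topological disks whose union is the plane and whose
interiors are pairwise disjoint. -/
structure IsTiling (𝒯 : Set (Set ℂ)) : Prop where
  countable : 𝒯.Countable
  disks : ∀ T ∈ 𝒯, IsDisk T
  cover : ⋃₀ 𝒯 = univ
  disjoint : ∀ S ∈ 𝒯, ∀ T ∈ 𝒯, S ≠ T → Disjoint (interior S) (interior T)

/-- `𝒯` is a monohedral tiling with prototile `C`: a tiling all of whose tiles are congruent to `C` (reflections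
allowed). -/
def IsMonohedral (𝒯 : Set (Set ℂ)) (C : Set ℂ) : Prop := IsTiling 𝒯 ∧ ∀ T ∈ 𝒯, ∃ g : ℂ ≃ᵢ ℂ, T = g '' C

/-- The isometry `g` is a symmetry of `𝒯`: it maps `𝒯` onto itself. -/
def IsSymmetry (𝒯 : Set (Set ℂ)) (g : ℂ ≃ᵢ ℂ) : Prop := (fun T => g '' T) '' 𝒯 = 𝒯

/-- `𝒯` is isohedral: its symmetries act transitively on the tiles. -/
def IsIsohedral (𝒯 : Set (Set ℂ)) : Prop := ∀ S ∈ 𝒯, ∀ T ∈ 𝒯, ∃ g : ℂ ≃ᵢ ℂ, IsSymmetry 𝒯 g ∧ g '' S = T

/-- `C` is anisohedral: it is the prototile of some monohedral tiling, but of no isohedral tiling. -/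
def IsAnisohedral (C : Set ℂ) : Prop :=
  (∃ 𝒯, IsMonohedral 𝒯 C) ∧ ¬ ∃ 𝒯, IsMonohedral 𝒯 C ∧ IsIsohedral 𝒯

/-! ### The symmetry group -/

theorem img_mul' (a b : ℂ ≃ᵢ ℂ) (A : Set ℂ) : (a * b) '' A = a '' (b '' A) := by
  rw [image_image]; rfl

theorem img_inv (a : ℂ ≃ᵢ ℂ) (A : Set ℂ) : (a⁻¹ : ℂ ≃ᵢ ℂ) '' (a '' A) = A := by
  rw [image_image]
  have : (fun x => (a⁻¹ : ℂ ≃ᵢ ℂ) (a x)) = id := by
    funext x; exact a.symm_apply_apply x
  rw [this, image_id]

theorem img_inv' (a : ℂ ≃ᵢ ℂ) (A : Set ℂ) : a '' ((a⁻¹ : ℂ ≃ᵢ ℂ) '' A) = A := by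
  rw [image_image]
  have : (fun x => a ((a⁻¹ : ℂ ≃ᵢ ℂ) x)) = id := by
    funext x; exact a.apply_symm_apply x
  rw [this, image_id]

/-- The symmetry group of a family of sets. -/
def Sym (𝒯 : Set (Set ℂ)) : Subgroup (ℂ ≃ᵢ ℂ) where
  carrier := {g | IsSymmetry 𝒯 g}
  mul_mem' := by
    intro a b ha hb
    change (fun T => (a * b) '' T) '' 𝒯 = 𝒯
    have e : (fun T : Set ℂ => (a * b) '' T) = (fun T => a '' T) ∘ (fun T => b '' T) := by
      funext T; exact img_mul' a b T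
    rw [e, image_comp]
    have hb' : (fun T => b '' T) '' 𝒯 = 𝒯 := hb
    have ha' : (fun T => a '' T) '' 𝒯 = 𝒯 := ha
    rw [hb', ha']
  one_mem' := by
    change (fun T => (1 : ℂ ≃ᵢ ℂ) '' T) '' 𝒯 = 𝒯
    have e : (fun T : Set ℂ => (1 : ℂ ≃ᵢ ℂ) '' T) = id := by
      funext T; ext z; simp
    rw [e, image_id]
  inv_mem' := by
    intro a ha
    change (fun T => (a⁻¹ : ℂ ≃ᵢ ℂ) '' T) '' 𝒯 = 𝒯
    have ha' : (fun T => a '' T) '' 𝒯 = 𝒯 := ha
    conv_lhs => rw [← ha']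
    rw [image_image]
    have e : (fun T : Set ℂ => (a⁻¹ : ℂ ≃ᵢ ℂ) '' (a '' T)) = id := by
      funext T; exact img_inv a T
    rw [e, image_id]

theorem no_isohedral (𝒯 : Set (Set ℂ)) (hm : IsMonohedral 𝒯 P) (hi : IsIsohedral 𝒯) : False := by
  obtain ⟨hT, hcong⟩ := hm
  have h0 : (0 : ℂ) ∈ ⋃₀ 𝒯 := by rw [hT.cover]; trivial
  obtain ⟨S, hS, -⟩ := h0
  obtain ⟨g, rfl⟩ := hcong S hS
  let H : Subgroup (ℂ ≃ᵢ ℂ) := (Sym 𝒯).comap (MulAut.conj g).toMonoidHom
  have hmem : ∀ h, h ∈ H ↔ IsSymmetry 𝒯 (g * h * g⁻¹) := fun h => Iff.rfl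
  refine no_sys (H := H) ⟨?_, ?_⟩
  · intro z
    have hz : g z ∈ ⋃₀ 𝒯 := by rw [hT.cover]; trivial
    obtain ⟨T, hT', hzT⟩ := hz
    obtain ⟨σ, hσ, hσT⟩ := hi _ hS T hT'
    refine ⟨g⁻¹ * σ * g, ?_, ?_⟩
    · rw [hmem]
      have : g * (g⁻¹ * σ * g) * g⁻¹ = σ := by group
      rw [this]; exact hσ
    · rw [img_mul', img_mul', hσT]
      exact ⟨g z, hzT, g.symm_apply_apply z⟩
  · intro h hh
    rw [hmem] at hh
    have h1 : (g * h * g⁻¹) '' (g '' P) = g '' (h '' P) := by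
      rw [img_mul', img_mul', img_inv]
    have h2 : g '' (h '' P) ∈ 𝒯 := by
      rw [← h1]
      have hh' : (fun T => (g * h * g⁻¹) '' T) '' 𝒯 = 𝒯 := hh
      rw [← hh']
      exact ⟨_, hS, rfl⟩
    by_cases he : g '' P = g '' (h '' P)
    · left
      have := congrArg (fun A => (g⁻¹ : ℂ ≃ᵢ ℂ) '' A) he
      simp only [img_inv] at this
      exact this.symm
    · right
      have := hT.disjoint _ hS _ h2 he
      rw [img_int, img_int g (h '' P)] at this
      exact (disjoint_image_iff g.injective).1 this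

theorem disk_iso (g : ℂ ≃ᵢ ℂ) : IsDisk (g '' P) := by
  obtain ⟨h1, ⟨e⟩⟩ := P_disk
  refine ⟨tile_closed g, ⟨?_⟩⟩
  exact (g.toHomeomorph.image P).symm.trans e

/-- There is a non-convex anisohedral hexagon. -/
theorem result : ∃ (v : Fin 6 → ℂ) (C : Set ℂ), IsHexagon v C ∧ ¬ Convex ℝ C ∧ IsAnisohedral C := by
  refine ⟨vx, P, ⟨vx_inj, P_simple, P_corner, P_disk, P_frontier⟩, P_not_convex, ?_, ?_⟩
  · refine ⟨{A | ∃ (k : Fin 4) (a b : ℤ), (52 : ℤ) ∣ a + 22 * b ∧ A = Tl k a b}, ⟨?_, ?_, ?_, ?_⟩, ?_⟩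
    · apply (Set.countable_range (fun p : Fin 4 × ℤ × ℤ => Tl p.1 p.2.1 p.2.2)).mono
      rintro A ⟨k, a, b, -, rfl⟩
      exact ⟨(k, a, b), rfl⟩
    · rintro A ⟨k, a, b, -, rfl⟩
      obtain ⟨g, hg⟩ := Tl_iso k a b
      rw [hg]
      exact disk_iso g
    · apply eq_univ_of_forall
      intro z
      obtain ⟨k, a, b, hab, hz⟩ := Tl_cover z
      exact ⟨_, ⟨k, a, b, hab, rfl⟩, hz⟩
    · rintro A ⟨k, a, b, hab, rfl⟩ B ⟨l, c, d, hcd, rfl⟩ hne
      exact Tl_disj hab hcd hne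
    · rintro A ⟨k, a, b, -, rfl⟩
      exact Tl_iso k a b
  · rintro ⟨𝒯, hm, hi⟩
    exact no_isohedral 𝒯 hm hi

end Pool.Agent.Results.MP_ef5fdc_co.AnisohedralHexagon
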